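import Pool.Agent.Helper57.BI.CompA
import Pool.Agent.Helper97.BI.Lip
import Pool.Agent.Helper82.BI.Offset
import Pool.Agent.Helper17.BI.Christoffel

/-! The finite key lemma (block BI-15), with the statement of block BI-12 as a hypothesis. -/

open MeasureTheory Complex Filter Topology
open scoped ENNReal

namespace Pool.Agent.Helper57.BI

/-- Trigonometric polynomials with frequencies `k / H`, `|k| ≤ M ≤ d H`, are band-limited. -/
theorem BL_trig {d : ℝ} (H M : ℕ) (hH : 0 < H) (hM : (M : ℝ) ≤ d * H) (G : ℤ → ℝ) (γ : ℤ → ℂ)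
    (hG : ∀ i : ℤ, (G i : ℂ) = ∑ k ∈ Finset.Icc (-(M : ℤ)) (M : ℤ), γ k * ee (k * i / H)) :
    BL d (fun i => (G i : ℂ)) := by
  intro a ha h0
  have hH' : (0 : ℝ) < H := by exact_mod_cast hH
  have hs : ∀ θ : ℝ, Summable fun l : ℤ => a l * ee (l * θ) := by
    intro θ
    refine Summable.of_norm ?_
    refine ha.norm.congr fun l => ?_
    rw [norm_mul, norm_ee, mul_one]
  calc ∑' l : ℤ, a l * (G l : ℂ)
      = ∑' l : ℤ, ∑ k ∈ Finset.Icc (-(M : ℤ)) (M : ℤ), γ k * (a l * ee (l * ((k : ℝ) / H))) := by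
        congr 1
        ext l
        rw [hG, Finset.mul_sum]
        refine Finset.sum_congr rfl fun k _ => ?_
        have : ((k : ℝ) * l / H) = l * ((k : ℝ) / H) := by ring
        rw [this]
        ring
    _ = ∑ k ∈ Finset.Icc (-(M : ℤ)) (M : ℤ), ∑' l : ℤ, γ k * (a l * ee (l * ((k : ℝ) / H))) := by
        rw [Summable.tsum_finsetSum]
        intro k _
        exact (hs _).mul_left _
    _ = 0 := by
        refine Finset.sum_eq_zero fun k hk => ?_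
        rw [tsum_mul_left]
        have hk' := Finset.mem_Icc.mp hk
        have h1 : |(k : ℝ) / H| ≤ d := by
          rw [abs_div, abs_of_pos hH', div_le_iff₀ hH']
          refine le_trans ?_ hM
          rw [abs_le]
          exact ⟨by exact_mod_cast hk'.1, by exact_mod_cast hk'.2⟩
        have h2 := h0 _ h1
        unfold sym at h2
        rw [h2, mul_zero]

/-- A symmetric trigonometric polynomial is real valued. -/
theorem trig_real (m : ℕ) (b : ℤ → ℂ) (hb : ∀ k, b (-k) = (starRingEnd ℂ) (b k)) (t : ℝ) :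
    ((∑ k ∈ Finset.Icc (-(m : ℤ)) m, b k * ee (k * t)).re : ℂ) =
      ∑ k ∈ Finset.Icc (-(m : ℤ)) m, b k * ee (k * t) := by
  rw [← Complex.conj_eq_iff_re, map_sum]
  refine Finset.sum_bij' (fun k _ => -k) (fun k _ => -k) ?_ ?_ ?_ ?_ ?_
  · intro k hk
    rw [Finset.mem_Icc] at hk ⊢
    omega
  · intro k hk
    rw [Finset.mem_Icc] at hk ⊢
    omega
  · intro k _
    simp
  · intro k _
    simp
  · intro k _
    rw [map_mul, hb k, ← ee_neg]
    congr 2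
    push_cast
    ring

/-- Elementary estimate used for the sampling step. -/
theorem exp_mul_sub_one (x c : ℝ) (z : ℂ) (hx : |x| ≤ c) (hc : c ≤ 1) :
    ‖(Real.exp x : ℂ) * z - 1‖ ^ 2 ≤ 18 * ‖z - 1‖ ^ 2 + 8 * c ^ 2 := by
  have h1 : ‖(Real.exp x : ℂ) * z - 1‖ ≤ Real.exp x * ‖z - 1‖ + |Real.exp x - 1| := by
    have e : (Real.exp x : ℂ) * z - 1 = (Real.exp x : ℂ) * (z - 1) + ((Real.exp x - 1 : ℝ) : ℂ) := by
      push_cast; ring
    rw [e]
    refine (norm_add_le _ _).trans ?_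
    rw [norm_mul, Complex.norm_real, Complex.norm_real, Real.norm_eq_abs, Real.norm_eq_abs,
      abs_of_pos (Real.exp_pos x)]
  have hx1 : |x| ≤ 1 := hx.trans hc
  have h2 : |Real.exp x - 1| ≤ 2 * |x| := Real.abs_exp_sub_one_le hx1
  have h3 : |Real.exp x - 1| ≤ 2 * c := by linarith
  have h4 : Real.exp x ≤ 3 := by
    have := (abs_le.mp h2).2
    linarith
  have h5 : 0 < Real.exp x := Real.exp_pos x
  have h6 : ‖(Real.exp x : ℂ) * z - 1‖ ≤ 3 * ‖z - 1‖ + 2 * c := by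
    have : Real.exp x * ‖z - 1‖ ≤ 3 * ‖z - 1‖ := by
      exact mul_le_mul_of_nonneg_right h4 (norm_nonneg _)
    linarith
  have h7 := norm_nonneg ((Real.exp x : ℂ) * z - 1)
  have h8 := norm_nonneg (z - 1)
  have hc0 : 0 ≤ c := (abs_nonneg x).trans hx
  calc ‖(Real.exp x : ℂ) * z - 1‖ ^ 2 ≤ (3 * ‖z - 1‖ + 2 * c) ^ 2 := by gcongr
    _ ≤ 18 * ‖z - 1‖ ^ 2 + 8 * c ^ 2 := by nlinarith [sq_nonneg (3 * ‖z - 1‖ - 2 * c)]

/-- Sampling step: from the band-limited approximation on the circle to the cyclic group. -/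
theorem sample_of (hI : ∀ (H : ℕ) (_ : 0 < H) (u : ℤ → ℝ) (_ : ∀ i, u (i + H) = u i) (c : ℝ)
      (_ : 0 < c) (_ : ∀ i, |u (i + 1) - u i| ≤ c),
      ∃ (m : ℕ) (b : ℤ → ℂ), (∀ k, b (-k) = (starRingEnd ℂ) (b k)) ∧
      ∑ k ∈ Finset.Icc (-(m : ℤ)) m, (2 * Real.pi * k) ^ 2 * ‖b k‖ ^ 2 ≤ (c * H) ^ 2 ∧
      ∀ (i : ℤ) (t : ℝ), (i : ℝ) / H ≤ t → t ≤ (i + 1) / H →
        |(∑ k ∈ Finset.Icc (-(m : ℤ)) m, b k * ee (k * t)).re - u i| ≤ 2 * c)
    (H N0 : ℕ) (hH : 0 < H) (hN0 : 1 ≤ N0) (u : ℤ → ℝ) (hu : ∀ i, u (i + H) = u i)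
    (c : ℝ) (hc : 0 < c) (hc1 : c ≤ 1) (hcu : ∀ i, |u (i + 1) - u i| ≤ c) :
    ∃ g : ℤ → ℂ, (∑ i ∈ Finset.range H, ‖(Real.exp (-(u i) / 2) : ℂ) *
      (∑ k ∈ Finset.Icc (-((N0 + N0 / 2 : ℕ) : ℤ)) ((N0 + N0 / 2 : ℕ) : ℤ), g k * ee (k * i / H))
        - 1‖ ^ 2) / H ≤ 18 * ((c * H) ^ 2 / (4 * (N0 : ℝ) ^ 2)) + 8 * c ^ 2 := by
  have hH' : (0 : ℝ) < H := by exact_mod_cast hH
  obtain ⟨m, b, hb, hbs, hbu⟩ := hI H hH u hu c hc hcu
  obtain ⟨g, hg⟩ := compA m (fun k => b k / 2) (fun k => by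
    simp only [hb k, map_div₀, Complex.conj_ofNat]) N0 hN0
  set W : ℝ → ℂ := fun t => ∑ k ∈ Finset.Icc (-(m : ℤ)) m, b k * ee (k * t) with hW
  set Q : ℝ → ℂ := fun t => ∑ k ∈ Finset.Icc (-((N0 + N0 / 2 : ℕ) : ℤ)) ((N0 + N0 / 2 : ℕ) : ℤ),
    g k * ee (k * t) with hQ
  have hWhalf : ∀ t : ℝ, ∑ k ∈ Finset.Icc (-(m : ℤ)) m, b k / 2 * ee (k * t) = W t / 2 := by
    intro t
    simp only [hW]
    rw [Finset.sum_div]
    refine Finset.sum_congr rfl fun k _ => ?_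
    ring
  have hWc : Continuous W := by
    simp only [hW]
    refine continuous_finsetSum _ fun k _ => ?_
    exact continuous_const.mul (continuous_ee.comp (continuous_const.mul continuous_id))
  have hQc : Continuous Q := by
    simp only [hQ]
    refine continuous_finsetSum _ fun k _ => ?_
    exact continuous_const.mul (continuous_ee.comp (continuous_const.mul continuous_id))
  set F : ℝ → ℝ := fun t => ‖Complex.exp (-(W t / 2)) * Q t - 1‖ ^ 2 with hF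
  have hFc : Continuous F := by
    simp only [hF]
    fun_prop
  obtain ⟨s, hs, hsF⟩ := offset H hH F hFc
  have hint : ∫ t in (0 : ℝ)..1, F t ≤ (c * H) ^ 2 / (4 * (N0 : ℝ) ^ 2) := by
    have e1 : ∫ t in (0 : ℝ)..1, F t = ∫ t in (0 : ℝ)..1,
      ‖Complex.exp (-∑ k ∈ Finset.Icc (-(m : ℤ)) m, b k / 2 * ee (k * t)) *
        (∑ k ∈ Finset.Icc (-((N0 + N0 / 2 : ℕ) : ℤ)) ((N0 + N0 / 2 : ℕ) : ℤ), g k * ee (k * t))
          - 1‖ ^ 2 := by
      congr 1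
      ext t
      rw [hWhalf t]
    rw [e1]
    refine hg.trans ?_
    have e2 : ∑ k ∈ Finset.Icc (-(m : ℤ)) m, (2 * Real.pi * k) ^ 2 * ‖b k / 2‖ ^ 2 =
        (∑ k ∈ Finset.Icc (-(m : ℤ)) m, (2 * Real.pi * k) ^ 2 * ‖b k‖ ^ 2) / 4 := by
      rw [Finset.sum_div]
      refine Finset.sum_congr rfl fun k _ => ?_
      rw [norm_div]
      have : ‖(2 : ℂ)‖ = 2 := by simp
      rw [this]
      ring
    rw [e2]
    have hN0' : (0 : ℝ) < (N0 : ℝ) ^ 2 := by positivity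
    rw [div_div]
    gcongr
  refine ⟨fun k => g k * ee (k * (s / H)), ?_⟩
  have key : ∀ i ∈ Finset.range H, ‖(Real.exp (-(u i) / 2) : ℂ) *
      (∑ k ∈ Finset.Icc (-((N0 + N0 / 2 : ℕ) : ℤ)) ((N0 + N0 / 2 : ℕ) : ℤ),
        g k * ee (k * (s / H)) * ee (k * i / H)) - 1‖ ^ 2 ≤
        18 * F ((i + s) / H) + 8 * c ^ 2 := by
    intro i _
    have e1 : (∑ k ∈ Finset.Icc (-((N0 + N0 / 2 : ℕ) : ℤ)) ((N0 + N0 / 2 : ℕ) : ℤ),
        g k * ee (k * (s / H)) * ee (k * i / H)) = Q ((i + s) / H) := by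
      simp only [hQ]
      refine Finset.sum_congr rfl fun k _ => ?_
      rw [mul_assoc, ← ee_add]
      congr 2
      ring
    rw [e1]
    have hWr := trig_real m b hb ((i + s) / H)
    have hbd := hbu i ((i + s) / H) (by
      push_cast
      gcongr
      linarith [hs.1]) (by
      push_cast
      gcongr
      exact hs.2)
    set x : ℝ := ((∑ k ∈ Finset.Icc (-(m : ℤ)) m, b k * ee (k * ((i + s) / H))).re - u i) / 2
      with hx
    have hxc : |x| ≤ c := by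
      rw [hx, abs_div, abs_of_pos (by norm_num : (0 : ℝ) < 2)]
      linarith
    have e2 : (Real.exp (-(u i) / 2) : ℂ) * Q ((i + s) / H) =
        (Real.exp x : ℂ) * (Complex.exp (-(W ((i + s) / H) / 2)) * Q ((i + s) / H)) := by
      rw [← mul_assoc]
      congr 1
      rw [Complex.ofReal_exp, Complex.ofReal_exp, ← Complex.exp_add]
      congr 1
      rw [hx]
      push_cast
      simp only [hW]
      rw [hWr]
      ring
    rw [e2]
    exact exp_mul_sub_one x c _ hxc hc1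
  calc _ ≤ (∑ i ∈ Finset.range H, (18 * F (((i : ℝ) + s) / H) + 8 * c ^ 2)) / (H : ℝ) := by
        gcongr with i hi
        exact key i hi
    _ = 18 * ((∑ i ∈ Finset.range H, F ((i + s) / H)) / H) + 8 * c ^ 2 := by
        rw [Finset.sum_add_distrib, ← Finset.mul_sum, Finset.sum_const, Finset.card_range,
          nsmul_eq_mul]
        field_simp
    _ ≤ 18 * ((c * H) ^ 2 / (4 * (N0 : ℝ) ^ 2)) + 8 * c ^ 2 := by
        have := hsF.trans hint
        linarith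

/-- BI-15: the finite key lemma. -/
theorem FKL_of (hI : ∀ (H : ℕ) (_ : 0 < H) (u : ℤ → ℝ) (_ : ∀ i, u (i + H) = u i) (c : ℝ)
      (_ : 0 < c) (_ : ∀ i, |u (i + 1) - u i| ≤ c),
      ∃ (m : ℕ) (b : ℤ → ℂ), (∀ k, b (-k) = (starRingEnd ℂ) (b k)) ∧
      ∑ k ∈ Finset.Icc (-(m : ℤ)) m, (2 * Real.pi * k) ^ 2 * ‖b k‖ ^ 2 ≤ (c * H) ^ 2 ∧
      ∀ (i : ℤ) (t : ℝ), (i : ℝ) / H ≤ t → t ≤ (i + 1) / H →
        |(∑ k ∈ Finset.Icc (-(m : ℤ)) m, b k * ee (k * t)).re - u i| ≤ 2 * c)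
    (d : ℝ) (hd : 0 < d) (hd' : d < 1 / 2) :
    ∃ C : ℝ, 1 ≤ C ∧ ∀ ε : ℝ, 0 < ε → ∃ τ : ℝ, 0 < τ ∧ ∃ H0 : ℕ, ∀ H : ℕ, H0 ≤ H →
      ∀ v : ℤ → ℝ, (∀ i, v (i + H) = v i) →
      ∑ i ∈ Finset.range H, |v ((i : ℤ) + 1) - v i| ≤ τ * H →
      ∃ G : ℤ → ℝ, BL d (fun i => (G i : ℂ)) ∧ (∀ i, 0 ≤ G i) ∧
        (∀ i, Real.exp (-(v i)) * G i ≤ C) ∧
        ∑ i ∈ Finset.range H, |Real.exp (-(v i)) * G i - 1| ≤ ε * H := by
  have hC1 : 1 ≤ 2 / d := by
    rw [le_div_iff₀ hd]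
    linarith
  refine ⟨2 / d, hC1, fun ε₀ hε₀ => ?_⟩
  obtain ⟨ε, hε, hε1, hεε⟩ : ∃ ε : ℝ, 0 < ε ∧ ε ≤ 1 ∧ ε ≤ ε₀ :=
    ⟨min ε₀ 1, lt_min hε₀ one_pos, min_le_right _ _, min_le_left _ _⟩
  set d1 : ℝ := ε * d / 100 with hd1
  have hd1p : 0 < d1 := by positivity
  have hd11 : d1 ≤ 1 := by
    rw [hd1]
    have h1 : ε * d ≤ 1 * 1 := mul_le_mul hε1 (by linarith) hd.le zero_le_one
    linarith
  set δ : ℝ := ε / 100 with hδ
  have hδp : 0 < δ := by positivity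
  have hδ1 : δ ≤ 1 / 2 := by rw [hδ]; linarith
  set c : ℝ := δ ^ 2 * d1 / 4 with hc
  have hcp : 0 < c := by positivity
  have hc1 : c ≤ 1 := by
    have h1 : δ ^ 2 ≤ 1 := pow_le_one₀ hδp.le (by linarith)
    have h2 : δ ^ 2 * d1 ≤ 1 * 1 := mul_le_mul h1 hd11 hd1p.le zero_le_one
    rw [hc]
    linarith
  set C : ℝ := 2 / d with hC
  have hCp : 0 < C := by linarith
  set τ : ℝ := c * ε / (4 * (C + 1)) with hτ
  have hτp : 0 < τ := by positivity
  refine ⟨τ, hτp, ⌈600 / (d * ε)⌉₊, fun H hH v hv hvs => ?_⟩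
  have hHr : 600 / (d * ε) ≤ H := (Nat.le_ceil _).trans (by exact_mod_cast hH)
  have hdH : 600 / ε ≤ d * H := by
    have : 600 / (d * ε) * d ≤ H * d := mul_le_mul_of_nonneg_right hHr hd.le
    calc 600 / ε = 600 / (d * ε) * d := by field_simp
      _ ≤ H * d := this
      _ = d * H := by ring
  have hdH6 : 600 ≤ d * H := by
    refine le_trans ?_ hdH
    rw [le_div_iff₀ hε]
    linarith
  have hHpos' : (0 : ℝ) < H := by
    by_contra h
    have h1 : d * H ≤ 0 := mul_nonpos_of_nonneg_of_nonpos hd.le (not_lt.mp h)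
    linarith
  have hHpos : 0 < H := by exact_mod_cast hHpos'
  have hdH2 : d * H ≤ 1 / 2 * H := mul_le_mul_of_nonneg_right hd'.le hHpos'.le
  -- the degree `N`
  set N : ℕ := ⌊d * H / 2⌋₊ with hN
  have hNle : (N : ℝ) ≤ d * H / 2 := Nat.floor_le (by positivity)
  have hNge : d * H / 2 - 1 < N := Nat.sub_one_lt_floor _
  have hNpos : 0 < N := by
    have : (0 : ℝ) < N := by linarith
    exact_mod_cast this
  have hNH : 2 * N + 1 ≤ H := by
    have h1 : ((2 * N + 1 : ℕ) : ℝ) ≤ (H : ℝ) := by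
      push_cast
      linarith
    exact_mod_cast h1
  -- the degree `N0`
  set N0 : ℕ := ⌈d1 * H⌉₊ with hN0
  have hN0ge : d1 * H ≤ N0 := Nat.le_ceil _
  have hN0lt : (N0 : ℝ) < d1 * H + 1 := Nat.ceil_lt_add_one (by positivity)
  have hd1H : 0 < d1 * H := by positivity
  have hN0pos : 1 ≤ N0 := by
    have : (0 : ℝ) < N0 := by linarith
    have : 0 < N0 := by exact_mod_cast this
    omega
  have hN1le : ((N0 + N0 / 2 : ℕ) : ℝ) ≤ 3 / 2 * (d1 * H + 1) := by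
    have h1 : ((N0 / 2 : ℕ) : ℝ) ≤ N0 / 2 := by
      have := Nat.cast_div_le (α := ℝ) (m := N0) (n := 2)
      simpa using this
    push_cast
    linarith
  have hd1H' : d1 * H = ε / 100 * (d * H) := by rw [hd1]; ring
  have hN1N : ((N0 + N0 / 2 : ℕ) : ℝ) ≤ 7 / 100 * ε * N := by
    have h1 : d * H / 4 ≤ N := by linarith
    have h2 : (1 : ℝ) ≤ ε * (d * H) / 600 := by
      rw [le_div_iff₀ (by norm_num)]
      have := mul_le_mul_of_nonneg_left hdH hε.le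
      have e : ε * (600 / ε) = 600 := by field_simp
      rw [e] at this
      linarith
    have h3 : ε * (d * H / 4) ≤ ε * N := mul_le_mul_of_nonneg_left h1 hε.le
    have h4 : 3 / 2 * (d1 * H + 1) ≤ 7 / 100 * (ε * (d * H / 4)) := by
      rw [hd1H']
      linarith
    linarith
  have hN1N' : N0 + N0 / 2 ≤ N := by
    have : ((N0 + N0 / 2 : ℕ) : ℝ) ≤ (N : ℝ) := by
      refine hN1N.trans ?_
      have h0 : (0 : ℝ) < N := by exact_mod_cast hNpos
      have h1 : ε * N ≤ 1 * N := mul_le_mul_of_nonneg_right hε1 h0.le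
      linarith
    exact_mod_cast this
  -- the minorant
  obtain ⟨u, hu, huc, huv, hbad⟩ := lip_minorant H hHpos v hv c hcp
  obtain ⟨g, hg⟩ := sample_of hI H N0 hHpos hN0pos u hu c hcp hc1 huc
  have hgδ : 18 * ((c * H) ^ 2 / (4 * (N0 : ℝ) ^ 2)) + 8 * c ^ 2 ≤ δ ^ 4 := by
    have hN0p : (0 : ℝ) < N0 := by exact_mod_cast hN0pos
    have h1 : (c * H) ^ 2 / (4 * (N0 : ℝ) ^ 2) ≤ c ^ 2 / (4 * d1 ^ 2) := by
      rw [div_le_div_iff₀ (by positivity) (by positivity)]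
      have h2 : (d1 * H) ^ 2 ≤ (N0 : ℝ) ^ 2 := by gcongr
      have h3 := mul_le_mul_of_nonneg_left h2 (by positivity : (0 : ℝ) ≤ 4 * c ^ 2)
      calc (c * H) ^ 2 * (4 * d1 ^ 2) = 4 * c ^ 2 * (d1 * H) ^ 2 := by ring
        _ ≤ 4 * c ^ 2 * (N0 : ℝ) ^ 2 := h3
        _ = c ^ 2 * (4 * (N0 : ℝ) ^ 2) := by ring
    have h3 : c ^ 2 / (4 * d1 ^ 2) = δ ^ 4 / 64 := by
      rw [hc]
      field_simp
      ring
    have h4 : c ^ 2 ≤ δ ^ 4 / 16 := by
      have : c ^ 2 = δ ^ 4 / 16 * d1 ^ 2 := by rw [hc]; ring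
      rw [this]
      have h5 : d1 ^ 2 ≤ 1 := pow_le_one₀ hd1p.le hd11
      have h6 : 0 ≤ δ ^ 4 / 16 := by positivity
      have h7 := mul_le_mul_of_nonneg_left h5 h6
      rwa [mul_one] at h7
    rw [h3] at h1
    have h7 : 0 ≤ δ ^ 4 := by positivity
    linarith
  obtain ⟨G, γ, hGγ, hG0, hGle, hGsum⟩ := christoffel H N (N0 + N0 / 2) hN1N' hNpos hNH u hu g δ
    hδp hδ1 (hg.trans hgδ)
  have hHN : (H : ℝ) / (2 * N + 1) ≤ C := by
    rw [hC, div_le_div_iff₀ (by positivity) hd]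
    linarith
  have hle : ∀ i, Real.exp (-(v i)) * G i ≤ C := by
    intro i
    refine le_trans ?_ ((hGle i).trans hHN)
    refine mul_le_mul_of_nonneg_right ?_ (hG0 i)
    exact Real.exp_le_exp.mpr (neg_le_neg (huv i))
  refine ⟨G, BL_trig H (2 * N) hHpos (by push_cast; linarith) G γ hGγ, hG0, hle, ?_⟩
  -- the average
  set B : Finset ℕ := (Finset.range H).filter fun i : ℕ => u i ≠ v i with hB
  have hstep : ∀ i ∈ Finset.range H, |Real.exp (-(v i)) * G i - 1| ≤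
      |Real.exp (-(u i)) * G i - 1| + (if u i ≠ v i then C + 1 else 0) := by
    intro i _
    by_cases h : u i = v i
    · rw [h]
      simp
    · rw [if_pos h]
      have h1 : 0 ≤ Real.exp (-(v i)) * G i := mul_nonneg (Real.exp_pos _).le (hG0 i)
      have h2 := hle i
      have h3 : |Real.exp (-(v i)) * G i - 1| ≤ C + 1 := by
        rw [abs_le]
        constructor <;> linarith
      have h4 := abs_nonneg (Real.exp (-(u i)) * G i - 1)
      linarith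
  have hsum1 : ∑ i ∈ Finset.range H, |Real.exp (-(u i)) * G i - 1| ≤
      (2 * ((N0 + N0 / 2 : ℕ) : ℝ) / N + 16 * δ) * H := by
    rw [div_le_iff₀ hHpos'] at hGsum
    exact hGsum
  have hNr : (0 : ℝ) < N := by exact_mod_cast hNpos
  have h14 : 2 * ((N0 + N0 / 2 : ℕ) : ℝ) / N ≤ 14 / 100 * ε := by
    rw [div_le_iff₀ hNr]
    linarith
  have hbad2 : (B.card : ℝ) ≤ 2 * τ * H / c := by
    rw [le_div_iff₀ hcp]
    calc (B.card : ℝ) * c = c * (B.card : ℝ) := by ring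
      _ ≤ 2 * ∑ i ∈ Finset.range H, |v ((i : ℤ) + 1) - v i| := hbad
      _ ≤ 2 * τ * H := by linarith
  have hbad3 : (B.card : ℝ) * (C + 1) ≤ ε / 2 * H := by
    have hC1p : 0 < C + 1 := by linarith
    calc (B.card : ℝ) * (C + 1) ≤ 2 * τ * H / c * (C + 1) := by gcongr
      _ = ε / 2 * H := by
        rw [hτ]
        field_simp
        ring
  calc ∑ i ∈ Finset.range H, |Real.exp (-(v i)) * G i - 1|
      ≤ ∑ i ∈ Finset.range H, (|Real.exp (-(u i)) * G i - 1| +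
          (if u i ≠ v i then C + 1 else 0)) := Finset.sum_le_sum hstep
    _ = ∑ i ∈ Finset.range H, |Real.exp (-(u i)) * G i - 1| + (B.card : ℝ) * (C + 1) := by
        rw [Finset.sum_add_distrib, ← Finset.sum_filter, Finset.sum_const, nsmul_eq_mul]
    _ ≤ (2 * ((N0 + N0 / 2 : ℕ) : ℝ) / N + 16 * δ) * H + ε / 2 * H := by linarith
    _ ≤ (14 / 100 * ε + 16 * δ) * H + ε / 2 * H := by gcongr
    _ ≤ ε * H := by
        rw [hδ]
        have h0 : 0 ≤ ε * H := by positivity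
        linarith
    _ ≤ ε₀ * H := by gcongr

end Pool.Agent.Helper57.BI
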