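import Pool.Agent.Helper65.BI.FKLOf
import Pool.Agent.Helper22.BI.Interp

/-! The finite key lemma (block BI-15). -/

open MeasureTheory Complex Filter Topology
open scoped ENNReal

namespace Pool.Agent.Helper57.BI

/-- BI-15: the finite key lemma. -/
theorem FKL (d : ℝ) (hd : 0 < d) (hd' : d < 1 / 2) :
    ∃ C : ℝ, 1 ≤ C ∧ ∀ ε : ℝ, 0 < ε → ∃ τ : ℝ, 0 < τ ∧ ∃ H0 : ℕ, ∀ H : ℕ, H0 ≤ H →
      ∀ v : ℤ → ℝ, (∀ i, v (i + H) = v i) →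
      ∑ i ∈ Finset.range H, |v ((i : ℤ) + 1) - v i| ≤ τ * H →
      ∃ G : ℤ → ℝ, BL d (fun i => (G i : ℂ)) ∧ (∀ i, 0 ≤ G i) ∧
        (∀ i, Real.exp (-(v i)) * G i ≤ C) ∧
        ∑ i ∈ Finset.range H, |Real.exp (-(v i)) * G i - 1| ≤ ε * H :=
  FKL_of trig_interp d hd hd'

end Pool.Agent.Helper57.BI
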